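import Mathlib
import Pool.Agent.H17.Bridge

/-!
# Typical compact group extensions of ergodic interval exchanges are ergodic

Full affirmative answer to Q1 of MP_5ca0ff_an.

Outline of the proof (helper modules `Pool.Agent.H17.*`).
* `Core`, `Stage`, `Nielsen`: two-sided Rauzy induction around any point `x₀` of `[0,1)`; at every
  stage the vector of return words is again distributed as `m_G^d` (Nielsen moves).
* `Tower`, `Shrink`: for an ergodic exchange the induction intervals shrink to `x₀`, and at
  infinitely many stages two of the exchanged intervals are comparable with the whole interval.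
* `Rep`, `Pair`, `ZeroOne`, `Generic`, `Ae`: almost every pair of elements of a compact connected
  group has no common nonzero fixed vector in a finite-dimensional orthogonal representation
  without fixed vectors.
* `Lebesgue`, `ClaimA`: an equivariant function with values in such a representation, defined on
  the product of `[0,1)` with the parameter space `G^d`, is zero almost everywhere.
* `PeterWeyl`, `Family`, `Coef`, `Total`, `Disint`, `Main`, `Bridge`: reduction of ergodicity for
  almost every parameter to the previous statement (Peter-Weyl, mean ergodic theorem).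
-/

open MeasureTheory

namespace Pool.Agent.Results.MP_5ca0ff_an.TypicalErgodic

universe u

/-- Lebesgue measure `λ` on `[0,1)`. -/
noncomputable def lebesgue : Measure (Set.Ico (0 : ℝ) 1) :=
  Measure.comap Subtype.val volume

/-- `T : [0,1) → [0,1)` is an interval exchange transformation with exchanged intervals
`I_j = [a j, b j)`, `j : Fin d`: the `I_j` are nonempty half-open intervals which partition `[0,1)`,
and `T` is a bijection of `[0,1)` onto itself which translates each `I_j`. (The permutation is the
order of the images `T I_j` in `[0,1)`.) -/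
structure IsIET {d : ℕ} (a b : Fin d → ℝ) (T : Set.Ico (0 : ℝ) 1 → Set.Ico (0 : ℝ) 1) :
    Prop where
  /-- the intervals are nonempty -/
  lt : ∀ j, a j < b j
  /-- the intervals are pairwise disjoint -/
  disjoint : ∀ i j, i ≠ j → Disjoint (Set.Ico (a i) (b i)) (Set.Ico (a j) (b j))
  /-- the intervals cover `[0,1)` exactly -/
  union : ⋃ j, Set.Ico (a j) (b j) = Set.Ico (0 : ℝ) 1
  /-- `T` is a bijection of `[0,1)` -/
  bijective : Function.Bijective T
  /-- `T` translates each interval -/
  translates : ∀ j, ∃ t : ℝ, ∀ x : Set.Ico (0 : ℝ) 1,
    (x : ℝ) ∈ Set.Ico (a j) (b j) → (T x : ℝ) = x + t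

/-- `φ : [0,1) → G` is the simple function given by the vector `g ∈ G^d`: it is constant, equal to
`g j`, on the exchanged interval `[a j, b j)`, for every `j`. -/
def IsSimple {d : ℕ} {G : Type u} (a b : Fin d → ℝ) (g : Fin d → G)
    (φ : Set.Ico (0 : ℝ) 1 → G) : Prop :=
  ∀ j, ∀ x : Set.Ico (0 : ℝ) 1, (x : ℝ) ∈ Set.Ico (a j) (b j) → φ x = g j

/-- The `G`-extension (skew product) `T_φ (x, y) = (T x, φ x * y)` on `[0,1) × G`. -/
def extension {G : Type u} [Mul G] (T : Set.Ico (0 : ℝ) 1 → Set.Ico (0 : ℝ) 1)
    (φ : Set.Ico (0 : ℝ) 1 → G) (z : Set.Ico (0 : ℝ) 1 × G) : Set.Ico (0 : ℝ) 1 × G :=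
  (T z.1, φ z.1 * z.2)

/-- For every interval exchange transformation `T` of `[0,1)` on `d` intervals which is ergodic
with respect to Lebesgue measure and every compact connected (Hausdorff, second countable) group
`G`, in particular every compact connected Lie group, with normalised Haar measure `μ`: for
`μ^d`-almost every `g ∈ G^d`, the `G`-extension of `T` by the simple function with values `g` is
ergodic with respect to the product of Lebesgue measure and `μ`. -/
theorem result {d : ℕ} {a b : Fin d → ℝ} {T : Set.Ico (0 : ℝ) 1 → Set.Ico (0 : ℝ) 1}
    (hT : IsIET a b T) (herg : Ergodic T lebesgue)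
    {G : Type u} [Group G] [TopologicalSpace G] [IsTopologicalGroup G]
    [CompactSpace G] [ConnectedSpace G] [T2Space G] [SecondCountableTopology G]
    [MeasurableSpace G] [BorelSpace G] (μ : Measure G) [μ.IsHaarMeasure]
    [IsProbabilityMeasure μ] :
    ∀ᵐ g ∂(Measure.pi fun _ : Fin d => μ), ∀ φ : Set.Ico (0 : ℝ) 1 → G,
      IsSimple a b g φ → Ergodic (extension T φ) (lebesgue.prod μ) := by
  choose t ht using hT.translates
  exact Pool.Agent.H17.typical_ergodic (fun j => (hT.lt j).le) hT.disjoint hT.union hT.bijective
    ht herg μ

end Pool.Agent.Results.MP_5ca0ff_an.TypicalErgodic
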